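import Pool.Agent.L7h49.EP.Epi

/-!
# Epimorphisms of Banach-Lie groups without dense range (pairs 2 and 3)

Let `1 ≤ p < ∞`. The Banach space `H = L^p([0,1])` is an abelian Banach-Lie group. Let `G` be the
free abelian group with basis `ℚ`, a countable discrete group, that is, a zero-dimensional Lie
group, and let `f : G → H` map the basis vector `q` to the indicator function of `(-∞, q)`. The
image of `f` consists of integer-valued step functions, so it is not dense. But `f` is an
epimorphism in the category of all locally convex Lie groups: smooth homomorphisms `g₁`, `g₂` from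
`H` to a locally convex Lie group `K` (in the sense of Bastiani) which agree on the image of `f`
are equal. In particular `f` is an epimorphism in the category of regular Fréchet-Lie groups. So the
answer to the question is negative for the pairs (Banach-Lie groups, regular Fréchet-Lie groups)
and (Banach-Lie groups, locally convex Lie groups).

Proof. The map `h = g₁ g₂⁻¹ : H → K` is smooth and periodic with respect to the image `D` of `f`.
Every periodic map of class `C^k`, `k > p`, is constant: for `d ∈ D` of small norm the function
`t ↦ h (x + t d)` is periodic with period `1` and in a chart its derivative of order `k` is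
`O(‖d‖ ^ k)`, by the joint continuity and homogeneity of the derivative; so `h` changes only by
`O(‖d‖ ^ k)` along the segment. An indicator function is the sum of `N` elements of `D` of norm at
most `N ^ (-1/p)`, so `h` changes by `O(N ^ (1 - k/p))` in its direction, for all `N`.
-/

open Filter Topology Set MeasureTheory
open scoped ENNReal

namespace Pool.Agent.L7h49.Old.BanachPairs

open Pool.Agent.L7h49.EP

universe v w

theorem result (p : ℝ≥0∞) [Fact (1 ≤ p)] (hp : p ≠ ⊤) :
    SmoothHom (discLie.{0} FreeQ) (stdLie (LpI p)) (stepHom p) ∧
    ¬ DenseRange (stepHom p) ∧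
    ∀ (W : Type v) [AddCommGroup W] [Module ℝ W] [TopologicalSpace W] [IsTopologicalAddGroup W]
      [ContinuousSMul ℝ W] [LocallyConvexSpace ℝ W] [T2Space W]
      (K : Type w) [Group K] [TopologicalSpace K] [IsTopologicalGroup K] (S : LieStr W K)
      (g₁ g₂ : Multiplicative (LpI p) →* K),
      SmoothHom (stdLie (LpI p)) S g₁ → SmoothHom (stdLie (LpI p)) S g₂ →
      g₁.comp (stepHom p) = g₂.comp (stepHom p) → g₁ = g₂ := by
  refine ⟨⟨continuous_of_discreteTopology, fun e _ e' _ n => Cn.of_subsingleton_dom n _ _⟩, ?_, ?_⟩
  · intro hd
    refine (s_LP p hp).1 ?_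
    have h1 : DenseRange fun m : FreeQ => Multiplicative.toAdd (stepHom p m) :=
      (Equiv.surjective Multiplicative.toAdd).denseRange.comp hd continuous_toAdd
    refine h1.mono ?_
    rintro _ ⟨m, rfl⟩
    exact range_le p ⟨Multiplicative.toAdd m, rfl⟩
  · intro W _ _ _ _ _ _ _ K _ _ _ S g₁ g₂ h₁ h₂ h
    have hk : p.toReal < (⌊p.toReal⌋₊ + 1 : ℕ) := by
      push_cast
      exact Nat.lt_floor_add_one _
    refine epi_core S h₁ h₂ (Nat.le_add_left 1 _) (frag_SQ p hp _ hk) (dense_SQ p hp) ?_
    rintro d ⟨m, rfl⟩
    exact DFunLike.congr_fun h (Multiplicative.ofAdd m)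

end Pool.Agent.L7h49.Old.BanachPairs
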