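import Pool.Agent.L7h49.QT.Q2

set_option autoImplicit false

/-!
# Kozma's question for locally finite graphs of unbounded degree (Q2): the answer is YES

There is a connected locally finite graph roughly isometric to the Euclidean plane with multiplicative
constant 1. It is the unit disc graph (two points are adjacent if their distance is at most 1) of the set of
the points `z` which are for some `n` in the grid of mesh `2^(-n-3)` and have `‖z‖ ≥ n - 1`. The graph distance
is at least the Euclidean distance. Conversely let `x`, `y` be two points of the set, on the line `P u`, where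
`P 0` is the foot of the origin, so `‖P u‖ ≥ |u|`. The points `P (w m)`, `m` an integer, with
`w m = ± (|m| - 1/2 + 2^(-|m|-1))`, have points `s m` of the set at distance at most `2^(-|m|-3)`, and `s m`,
`s (m+1)` are at distance at most 1. So the steps can be so close to 1 that only a bounded number of steps is
lost on every line: the graph distance is at most `‖x - y‖ + 3`.

Author: helper49.
-/

namespace Pool.Agent.L7h49.Old.LocallyFiniteRoughPlane

/-- There is a connected graph `G` with all degrees finite and a map `f` from its vertices to the Euclidean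
plane with `| ‖f x - f y‖ - d_G(x, y) | < 4` for all `x`, `y`, whose image is a `4`-net. -/
theorem result :
    ∃ (V : Type) (G : SimpleGraph V) (f : V → EuclideanSpace ℝ (Fin 2)),
      G.Connected ∧ (∀ v, (G.neighborSet v).Finite) ∧
      (∀ x y, |‖f x - f y‖ - (G.dist x y : ℝ)| < 4) ∧
      ∀ z : EuclideanSpace ℝ (Fin 2), ∃ x, ‖f x - z‖ < 4 := by
  refine ⟨Pool.Agent.L7h49.QT.S, Pool.Agent.L7h49.QT.G,
    fun v => Complex.orthonormalBasisOneI.repr (v : ℂ), Pool.Agent.L7h49.QT.conn,
    Pool.Agent.L7h49.QT.locfin, ?_, ?_⟩
  · intro x y
    rw [← map_sub, LinearIsometryEquiv.norm_map]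
    exact Pool.Agent.L7h49.QT.dist_err x y
  · intro z
    obtain ⟨s, hs⟩ := Pool.Agent.L7h49.QT.near 0 (Complex.orthonormalBasisOneI.repr.symm z)
      (le_trans (by norm_num) (norm_nonneg _))
    refine ⟨s, ?_⟩
    have h : Complex.orthonormalBasisOneI.repr (s : ℂ) - z =
        Complex.orthonormalBasisOneI.repr ((s : ℂ) - Complex.orthonormalBasisOneI.repr.symm z) := by
      rw [map_sub, LinearIsometryEquiv.apply_symm_apply]
    rw [h, LinearIsometryEquiv.norm_map]
    refine lt_of_le_of_lt hs ?_
    norm_num

end Pool.Agent.L7h49.Old.LocallyFiniteRoughPlane
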