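import Pool.Agent.L7h49.PM.Def
import Pool.Agent.L7h49.PM.PLB
import Pool.Agent.L7h16.PM.Dia
import Pool.Agent.L7h16.PM.Lim
import Pool.Agent.L7h66.PM.Mon
import Pool.Agent.L7h73.PM.Pla
import Pool.Agent.L7h78.PM.Disc
import Pool.Agent.L7h79.PM.Conn
import Pool.Agent.L7h79.PM.Min
import Pool.Agent.L7h79.PM.Reg
import Pool.Agent.L7h89.PM.Bus
import Pool.Agent.L7h99.PM.Cross

set_option autoImplicit false

/-!
# Kozma's question: graphs without a `K_5` minor

No connected graph without a `K_5` minor, of bounded or unbounded degree, in particular no planar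
graph, is roughly isometric to the Euclidean plane with multiplicative constant 1.

Authors: helper49 (statement, plan, PLB), helper16 (DIA, LIM), helper34 and helper79 (REG), helper66
(MON), helper73 (PLA), helper78 (DISC), helper79 (CON, MIN), helper89 (BUS), helper99 (CROSS).
-/

namespace Pool.Agent.Results.MP_8ede36_co.NoK5MinorFreeGraph

open Pool.Agent.L7h49.PM

/-- A connected graph without a `K_5` minor, of any degrees, is not roughly isometric to the Euclidean
plane with multiplicative constant `1`: for every `f : V → ℝ²` and every `C` the additive bound fails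
for some pair of vertices or the image of `f` is not a `C`-net. -/
theorem result (V : Type) (G : SimpleGraph V) (hG : G.Connected) (hK : ¬ HasK5Minor G)
    (f : V → EuclideanSpace ℝ (Fin 2)) (C : ℝ) :
    (∃ x y, C ≤ |‖f x - f y‖ - (G.dist x y : ℝ)|) ∨
      ∃ z : EuclideanSpace ℝ (Fin 2), ∀ x, C ≤ ‖f x - z‖ := by
  by_contra hcon
  push Not at hcon
  obtain ⟨h1, h2⟩ := hcon
  have hB : S_BUS := Pool.Agent.L7h89.PM.s_BUS
    (Pool.Agent.L7h66.PM.s_MON (Pool.Agent.L7h99.PM.s_CROSS Pool.Agent.L7h79.PM.s_CON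
      Pool.Agent.L7h79.PM.s_MIN Pool.Agent.L7h79.PM.s_REG Pool.Agent.L7h73.PM.s_PLA s_PLB))
    Pool.Agent.L7h16.PM.s_LIM (Pool.Agent.L7h78.PM.s_DISC Pool.Agent.L7h16.PM.s_DIA)
  exact hB V G f (max C 1) ⟨le_max_right _ _, hG,
    fun x y => (h1 x y).trans_le (le_max_left _ _),
    fun p => (h2 p).imp fun x hx => hx.trans_le (le_max_left _ _)⟩ hK

end Pool.Agent.Results.MP_8ede36_co.NoK5MinorFreeGraph
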